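import Pool.Agent.Work.MP_7519fb_mp.Cont

/-!
# Continuity of the operational squeezing measure
-/

namespace Pool.Agent.Results.MP_7519fb_mp.Continuity

open Matrix
open scoped Kronecker ComplexOrder

/-- The index set of the canonical variables: `(i, 0)` stands for `Q_i` and `(i, 1)` for `P_i`. -/
abbrev Idx (n : ℕ) : Type := Fin n × Fin 2

/-- The symplectic form: block diagonal with `n` blocks `!![0, 1; -1, 0]`. -/
noncomputable def sigma (n : ℕ) : Matrix (Idx n) (Idx n) ℝ :=
  (1 : Matrix (Fin n) (Fin n) ℝ) ⊗ₖ !![0, 1; -1, 0]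

/-- The real symplectic group. -/
def IsSymplectic {n : ℕ} (S : Matrix (Idx n) (Idx n) ℝ) : Prop := Sᵀ * sigma n * S = sigma n

/-- Covariance matrices: real symmetric `γ` with `γ - i σ` positive semidefinite. -/
def IsCov {n : ℕ} (γ : Matrix (Idx n) (Idx n) ℝ) : Prop :=
  γ.IsSymm ∧
    (γ.map Complex.ofReal - Complex.I • (sigma n).map Complex.ofReal :
      Matrix (Idx n) (Idx n) ℂ).PosSemidef

/-- The set of all values `∑_{i=1}^n log s_i(S)` with `S` symplectic and `SᵀS ≤ γ`, where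
`s_1 ≥ s_2 ≥ …` are the singular values of `S`. -/
def squeezingValues (n : ℕ) (γ : Matrix (Idx n) (Idx n) ℝ) : Set ℝ :=
  {r | ∃ S : Matrix (Idx n) (Idx n) ℝ, IsSymplectic S ∧ (γ - Sᵀ * S).PosSemidef ∧
    r = ∑ i ∈ Finset.range n, Real.log ((Matrix.toEuclideanLin S).singularValues i)}

/-- The operational squeezing measure. -/
noncomputable def G (n : ℕ) (γ : Matrix (Idx n) (Idx n) ℝ) : ℝ := sInf (squeezingValues n γ)

theorem sigma_transpose (n : ℕ) : (sigma n)ᴴ = -sigma n := by
  ext ⟨i, a⟩ ⟨j, b⟩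
  simp only [sigma, conjTranspose_apply, Matrix.neg_apply, kroneckerMap_apply, star_trivial,
    Matrix.one_apply]
  by_cases hij : i = j
  · subst hij
    fin_cases a <;> fin_cases b <;> simp
  · have hji : j ≠ i := fun h => hij h.symm
    simp [hij, hji]

theorem sigma_sq (n : ℕ) : sigma n * sigma n = -1 := by
  rw [sigma, ← Matrix.mul_kronecker_mul, one_mul]
  have : (!![0, 1; -1, 0] * !![0, 1; -1, 0] : Matrix (Fin 2) (Fin 2) ℝ) = -1 := by
    ext i j
    fin_cases i <;> fin_cases j <;> simp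
  rw [this]
  ext ⟨i, a⟩ ⟨j, b⟩
  simp only [kroneckerMap_apply, Matrix.neg_apply, Matrix.one_apply, Prod.mk.injEq]
  by_cases hij : i = j <;> by_cases hab : a = b <;> simp [hij, hab]

theorem realCov {n : ℕ} {γ : Matrix (Idx n) (Idx n) ℝ} (h : IsCov γ) :
    Squeezing.RealCov (sigma n) γ := by
  refine ⟨h.1, fun x y => ?_⟩
  have h1 := h.2.dotProduct_mulVec_nonneg (fun i => (x i : ℂ) + (y i : ℂ) * Complex.I)
  have h2 := (Complex.le_def.1 h1).1
  have key : (star (fun i => (x i : ℂ) + (y i : ℂ) * Complex.I) ⬝ᵥ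
      (γ.map Complex.ofReal - Complex.I • (sigma n).map Complex.ofReal :
      Matrix (Idx n) (Idx n) ℂ) *ᵥ (fun i => (x i : ℂ) + (y i : ℂ) * Complex.I)).re =
      x ⬝ᵥ γ *ᵥ x + y ⬝ᵥ γ *ᵥ y + (x ⬝ᵥ sigma n *ᵥ y - y ⬝ᵥ sigma n *ᵥ x) := by
    simp only [dotProduct, mulVec, Finset.mul_sum, Complex.re_sum, ← Finset.sum_add_distrib,
      ← Finset.sum_sub_distrib]
    refine Finset.sum_congr rfl fun i _ => Finset.sum_congr rfl fun j _ => ?_
    simp only [Pi.star_apply, Matrix.sub_apply, Matrix.map_apply, Matrix.smul_apply, smul_eq_mul,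
      star_add, star_mul', Complex.star_def, Complex.conj_ofReal, Complex.conj_I, Complex.mul_re,
      Complex.add_re, Complex.add_im, Complex.sub_re, Complex.sub_im, Complex.mul_im,
      Complex.ofReal_re, Complex.ofReal_im, Complex.I_re, Complex.I_im, Complex.neg_re,
      Complex.neg_im]
    ring
  rw [key] at h2
  simpa using h2

open scoped MatrixOrder in
theorem values_eq {n : ℕ} {γ : Matrix (Idx n) (Idx n) ℝ} (h : IsCov γ) :
    squeezingValues n γ =
      (fun W => Squeezing.tval (Squeezing.Mmat (sigma n) γ W)) '' Squeezing.WSet (sigma n) := by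
  have hJT := sigma_transpose n
  have hJ2 := sigma_sq n
  have hc := realCov h
  have hcard : Fintype.card (Idx n) = n + n := by simp [Idx]; ring
  ext r
  constructor
  · rintro ⟨S, hS1, hS2, rfl⟩
    have hST : Sᵀ = Sᴴ := rfl
    rw [IsSymplectic, hST] at hS1
    rw [hST] at hS2
    -- `S σ Sᵀ = σ`
    have hinv : (-(sigma n) * Sᴴ * sigma n) * S = 1 := by
      calc (-(sigma n) * Sᴴ * sigma n) * S = -(sigma n * (Sᴴ * sigma n * S)) := by
            simp only [neg_mul, mul_assoc]
        _ = 1 := by rw [hS1, hJ2, neg_neg]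
    have hinv' := mul_eq_one_comm.1 hinv
    have hS' : S * sigma n * Sᴴ = sigma n := by
      calc S * sigma n * Sᴴ = (S * (-(sigma n) * Sᴴ * sigma n)) * sigma n := by
            have : S * (-(sigma n) * Sᴴ * sigma n) * sigma n =
                -(S * sigma n * Sᴴ * (sigma n * sigma n)) := by
              simp only [neg_mul, mul_neg, mul_assoc]
            rw [this, hJ2, mul_neg, mul_one, neg_neg]
        _ = sigma n := by rw [hinv', one_mul]
    have hMJ : (Sᴴ * S) * sigma n * (Sᴴ * S) = sigma n := by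
      calc (Sᴴ * S) * sigma n * (Sᴴ * S) = Sᴴ * (S * sigma n * Sᴴ) * S := by
            simp only [mul_assoc]
        _ = sigma n := by rw [hS', hS1]
    have hM : (Sᴴ * S).PosDef :=
      (Matrix.posSemidef_conjTranspose_mul_self S).posDef_iff_isUnit.2
        (Squeezing.isUnit_of_mul hJT hJ2 hMJ)
    obtain ⟨W, hW, hWM⟩ := Squeezing.exists_param hJT hJ2 hc hM hMJ hS2
    refine ⟨W, hW, ?_⟩
    simp only
    rw [hWM, Squeezing.value_eq hJT hJ2 hcard S hM hMJ rfl]
  · rintro ⟨W, hW, rfl⟩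
    have hM := Squeezing.Mmat_posDef hJT hJ2 hc hW
    have hMJ := Squeezing.Mmat_sympl hJT hJ2 hc hW
    have hle := Squeezing.Mmat_le hJT hJ2 hc hW
    have hs := Squeezing.sqrt_sympl hJT hJ2 hM hMJ
    have hh : (CFC.sqrt (Squeezing.Mmat (sigma n) γ W))ᴴ =
        CFC.sqrt (Squeezing.Mmat (sigma n) γ W) := Squeezing.sqrt_isHermitian _
    have hss : (CFC.sqrt (Squeezing.Mmat (sigma n) γ W))ᴴ *
        CFC.sqrt (Squeezing.Mmat (sigma n) γ W) = Squeezing.Mmat (sigma n) γ W := by
      rw [hh]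
      exact CFC.sqrt_mul_sqrt_self _ (Matrix.nonneg_iff_posSemidef.2 hM.posSemidef)
    refine ⟨CFC.sqrt (Squeezing.Mmat (sigma n) γ W), ?_, ?_, ?_⟩
    · change (CFC.sqrt (Squeezing.Mmat (sigma n) γ W))ᴴ * sigma n *
        CFC.sqrt (Squeezing.Mmat (sigma n) γ W) = sigma n
      rw [hh]; exact hs
    · change (γ - (CFC.sqrt (Squeezing.Mmat (sigma n) γ W))ᴴ *
        CFC.sqrt (Squeezing.Mmat (sigma n) γ W)).PosSemidef
      rw [hss]; exact hle
    · exact (Squeezing.value_eq hJT hJ2 hcard _ hM hMJ hss).symm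

/-- For every number `n ≥ 1` of modes the squeezing measure `G` is well defined (the infimum is
over a nonempty set that is bounded below) and continuous on the set of all covariance matrices. -/
theorem result : ∀ n : ℕ, 1 ≤ n →
    (∀ γ : Matrix (Idx n) (Idx n) ℝ, IsCov γ →
      (squeezingValues n γ).Nonempty ∧ BddBelow (squeezingValues n γ)) ∧
    ContinuousOn (G n) {γ : Matrix (Idx n) (Idx n) ℝ | IsCov γ} := by
  intro n _
  have hJT := sigma_transpose n
  have hJ2 := sigma_sq n
  refine ⟨fun γ h => ?_, ?_⟩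
  · rw [values_eq h]
    refine ⟨⟨_, 0, ⟨Matrix.isHermitian_zero, by simp, ?_, ?_⟩, rfl⟩, 0, ?_⟩
    · rw [sub_zero]; exact Matrix.PosSemidef.one
    · rw [add_zero]; exact Matrix.PosSemidef.one
    · rintro r ⟨W, hW, rfl⟩
      have hM := Squeezing.Mmat_posDef hJT hJ2 (realCov h) hW
      simp only
      rw [Squeezing.tval, Squeezing.trace_cfc_eq hM.isHermitian]
      have : 0 ≤ ∑ i, |Real.log (hM.isHermitian.eigenvalues₀ i)| :=
        Finset.sum_nonneg fun i _ => abs_nonneg _
      positivity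
  · have h1 := (Squeezing.continuousOn_sInf hJT hJ2).mono
      (fun γ (h : IsCov γ) => realCov h)
    refine h1.congr fun γ (h : IsCov γ) => ?_
    rw [G, values_eq h]

end Pool.Agent.Results.MP_7519fb_mp.Continuity
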